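import Pool.Agent.Z702.Defs

/-!
# The cocycle `χ_d T` on `y² = x³ + a x² + b x`
-/

set_option autoImplicit false

namespace Pool.Agent.Z488

open WeierstrassCurve

open Pool.Agent.TH841.SH.D

open Pool.Agent.Z702

attribute [-instance] DivisionRing.toRatAlgebra

/-- the algebraic closure of `ℚ` -/
abbrev QB : Type := AlgebraicClosure ℚ

lemma lc_apply (x : QB) : IsLocallyConstant (fun σ : Gal ℚ => σ x) := by
  rw [IsLocallyConstant.iff_exists_open]
  intro σ
  have hx : IsIntegral ℚ x := Algebra.IsIntegral.isIntegral x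
  have : FiniteDimensional ℚ (IntermediateField.adjoin ℚ {x}) :=
    IntermediateField.adjoin.finiteDimensional hx
  refine ⟨(fun τ => σ⁻¹ * τ) ⁻¹'
    ((IntermediateField.adjoin ℚ {x}).fixingSubgroup : Set (QB ≃ₐ[ℚ] QB)),
    (IntermediateField.fixingSubgroup_isOpen _).preimage (continuous_const_mul _), ?_, ?_⟩
  · show σ⁻¹ * σ ∈ (IntermediateField.adjoin ℚ {x}).fixingSubgroup
    rw [inv_mul_cancel]
    exact one_mem _
  · intro τ hτ
    have h1 : σ⁻¹ * τ ∈ (IntermediateField.adjoin ℚ {x}).fixingSubgroup := hτ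
    rw [IntermediateField.mem_fixingSubgroup_iff] at h1
    have h2 := h1 x (IntermediateField.mem_adjoin_simple_self ℚ x)
    rw [AlgEquiv.mul_apply] at h2
    have h3 := congrArg σ h2
    rw [← AlgEquiv.mul_apply, mul_inv_cancel, AlgEquiv.one_apply] at h3
    exact h3

lemma exists_root (d : ℤ) : ∃ s : QB, s ^ 2 = (d : QB) :=
  IsAlgClosed.exists_pow_nat_eq _ two_pos

lemma ap_sq {d : ℤ} {s : QB} (hs : s ^ 2 = (d : QB)) (σ : Gal ℚ) : σ s = s ∨ σ s = -s := by
  apply sq_eq_sq_iff_eq_or_eq_neg.1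
  rw [← map_pow, hs, map_intCast]

variable {a b : ℤ}

lemma coc_pos (hb : b ≠ 0) {d : ℤ} {σ : Gal ℚ}
    (hex : ∃ s : QB, s ^ 2 = (d : QB) ∧ σ s ≠ s) : coc (a := a) hb d σ = T0 hb QB := if_pos hex

lemma coc_none (hb : b ≠ 0) {d : ℤ} {σ : Gal ℚ}
    (hex : ¬ ∃ s : QB, s ^ 2 = (d : QB) ∧ σ s ≠ s) : coc (a := a) hb d σ = 0 := if_neg hex

lemma coc_eq (hb : b ≠ 0) {d : ℤ} {s : QB} (hs : s ^ 2 = (d : QB)) (σ : Gal ℚ) :
    (σ s = s → coc (a := a) hb d σ = 0) ∧ (σ s ≠ s → coc (a := a) hb d σ = T0 hb QB) := by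
  constructor
  · intro h1
    apply coc_none
    rintro ⟨t, h2, h3⟩
    apply h3
    rw [← hs] at h2
    rcases sq_eq_sq_iff_eq_or_eq_neg.1 h2 with rfl | rfl
    · exact h1
    · rw [map_neg, h1]
  · intro h1
    exact coc_pos hb ⟨s, hs, h1⟩

lemma T0_add (hb : b ≠ 0) : T0 (a := a) hb QB + T0 hb QB = 0 := by
  refine @Affine.Point.add_of_Y_eq QB _ ((WZ a b).baseChange QB).toAffine (Classical.decEq QB)
    0 0 0 0 (ns0 hb QB) (ns0 hb QB) rfl ?_
  have h1 : ((WZ a b).baseChange QB).toAffine.a₁ = 0 := map_zero (algebraMap ℚ QB)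
  have h3 : ((WZ a b).baseChange QB).toAffine.a₃ = 0 := map_zero (algebraMap ℚ QB)
  rw [Affine.negY, h1, h3]
  ring

lemma act_T0 (hb : b ≠ 0) (σ : Gal ℚ) :
    act (WZ a b) σ.toAlgHom (T0 hb QB) = T0 hb QB := by
  have h1 : act (WZ a b) σ.toAlgHom (T0 hb QB) = (Affine.Point.some (σ 0) (σ 0)
    ((Affine.baseChange_nonsingular (WZ a b) σ.toAlgHom.injective ..).mpr (ns0 hb QB)) :
      Pt (WZ a b) QB) := rfl
  rw [h1]
  unfold T0
  congr 1
  · exact map_zero σ
  · exact map_zero σ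

lemma coc_coc (hb : b ≠ 0) (d : ℤ) : IsCoc (WZ a b) (coc hb d) := by
  classical
  obtain ⟨s, hs⟩ := exists_root d
  constructor
  · have h1 : coc (a := a) hb d = (fun x : QB => if x = s then (0 : Pt (WZ a b) QB) else T0 hb QB) ∘
        (fun σ : Gal ℚ => σ s) := by
      funext σ
      show coc hb d σ = if σ s = s then 0 else T0 hb QB
      split_ifs with h2
      · exact (coc_eq hb hs σ).1 h2
      · exact (coc_eq hb hs σ).2 h2
    rw [h1]
    exact (lc_apply s).comp _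
  · intro σ τ
    have hm : (σ * τ) s = σ (τ s) := rfl
    rcases ap_sq hs τ with h1 | h1
    · rw [(coc_eq hb hs τ).1 h1, map_zero, add_zero]
      rw [h1] at hm
      by_cases h2 : σ s = s
      · rw [(coc_eq hb hs σ).1 h2, (coc_eq hb hs (σ * τ)).1 (hm.trans h2)]
      · rw [(coc_eq hb hs σ).2 h2, (coc_eq hb hs (σ * τ)).2 (by rw [hm]; exact h2)]
    · by_cases h0 : -s = s
      · rw [h0] at h1
        rw [(coc_eq hb hs τ).1 h1, map_zero, add_zero]
        rw [h1] at hm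
        by_cases h2 : σ s = s
        · rw [(coc_eq hb hs σ).1 h2, (coc_eq hb hs (σ * τ)).1 (hm.trans h2)]
        · rw [(coc_eq hb hs σ).2 h2, (coc_eq hb hs (σ * τ)).2 (by rw [hm]; exact h2)]
      · rw [(coc_eq hb hs τ).2 (by rw [h1]; exact h0), act_T0]
        rw [h1, map_neg] at hm
        by_cases h2 : σ s = s
        · rw [h2] at hm
          rw [(coc_eq hb hs σ).1 h2, (coc_eq hb hs (σ * τ)).2 (by rw [hm]; exact h0), zero_add]
        · have h3 : σ s = -s := (ap_sq hs σ).resolve_left h2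
          rw [h3, neg_neg] at hm
          rw [(coc_eq hb hs σ).2 h2, (coc_eq hb hs (σ * τ)).1 hm, T0_add]

lemma coc_two (hb : b ≠ 0) (d : ℤ) : coc (a := a) hb d + coc hb d = 0 := by
  obtain ⟨s, hs⟩ := exists_root d
  funext σ
  show coc (a := a) hb d σ + coc hb d σ = 0
  by_cases h1 : σ s = s
  · rw [(coc_eq hb hs σ).1 h1, add_zero]
  · rw [(coc_eq hb hs σ).2 h1, T0_add]

theorem t_COC : Pool.Agent.Z702.S_COC := fun _ _ hb d => ⟨coc_coc hb d, coc_two hb d⟩

end Pool.Agent.Z488
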